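import Pool.Agent.N676.Y1.Base
import Pool.Agent.N676.RV.Small

/-!
# Zilber-Pink in `Y(1)^n` for all families of rational curves, parameters in families of vectors of residues

`Y(1)^n` is identified with `ℂ^n` by the elliptic modular function. We use the definitions of `Pool.Agent.N676.Y1.Base`
(`SpecialVariety`, `member`, `NoCommonZeros`, `ZilberPink`).

*Families of curves.* Let `P_i (u; s, t)`, `Q_i (u; s, t)`, `i = 1, …, n`, be arbitrary forms of degree `d ≥ 1` in
`(s, t)` whose coefficients are integral polynomials in finitely many parameters `u_j`, `j ∈ J` (`J` can be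
empty), such that the `n` resultants of `P_i`, `Q_i` and the resultants of `P_i Q_i`, `P_j Q_j`, `i ≠ j`, are
not identically zero.  For integers `m` and `u` one has the rational curve `V (m, u)` with the
parametrization `x_i = P_i (u; s, t) / (m Q_i (u; s, t))`, `(s : t) ∈ ℙ¹`.

*Families of vectors of parameters.* Let `r = 1 + |J|`. The vectors `(m, u)` are `c₀ + y_i`, `i ∈ s`, where `c₀` is any
integral vector and the `y_i` are the least residues of vectors of residues modulo a number `q` whose Fourier coefficients
at the nonzero frequencies are at most `|s| / (Z (42 + 3 log q) ^ r)`, where `Z ≤ q` (`Small`). There are very thin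
families of this kind (`Examples`): all coordinates in cosets of subgroups of order `≥ 5 p^(3/8+δ)` of the
multiplicative group modulo a prime `q = p`, all coordinates in the set of the quotients `j / l` modulo `p`, `l ≤ R` prime,
`0 ≤ j < R²`, `R` a power of `log p`, or the vectors `(f_i(x))_i` modulo `p` of the values of polynomials of
different degrees `≥ e`, `x ≤ p^(1/e+δ)`, with only one parameter `x`.

**Theorem.** (1) For every family of curves, every finite set `Γ` of algebraic numbers and every `ε > 0` there are `G` and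
`Z₀` such that for all families of vectors with `Z ≥ Z₀` and all `c₀`, for all but `ε |s|` of the `i ∈ s`, with
`(m, u) = c₀ + y_i`,

* `V (m, u)` has at most `G` points on special subvarieties of codimension at least two;
* all these points are on the special subvarieties defined by an isogeny of degree at most `G` between two
  of the coordinates: one finite set of proper special subvarieties of `Y(1)^n` covers the atypical
  intersections of all these curves;
* `V (m, u)` is not contained in a proper special subvariety.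

(2) For each sequence of families of vectors with `Z k → ∞` there are exceptional sets `E k` of members of the
families, of proportions tending to zero, such that for ALL families of curves (all `n`, `d`, `P_i`, `Q_i`) and ALL
finite sets `Γ` of algebraic numbers, for all large `k` and all `i ∈ s k` outside `E k`, the Zilber-Pink conjecture holds
for `V (m, u)`, `(m, u) = c₀ + y_i`: finitely many points on special subvarieties of codimension at least two, and
`V (m, u)` is not contained in a proper special subvariety.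

(3) The examples of families of vectors.

Proof. The local theorem of the starting library (a prime which divides `m` and no resultant; `local_family` of helper107,
`bad_small` of helper265) and the uniform distribution of the families of vectors modulo small integers (helper384).
-/

set_option autoImplicit false

namespace Pool.Agent.Results.MP_6e1a06_nt.ResidueVectors

open Filter Topology MvPolynomial Pool.Agent.N24.RW Pool.Agent.N676.RV
open Pool.Agent.N107.KM (Own exists_T zero_pronull)
open Pool.Agent.N676.Y1

variable {J : Type} [Fintype J] [DecidableEq J]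

/-- no prime above `T₀` divides the distinguished coordinate and not the value of `R` -/
def Bare (R : MvPolynomial J ℤ) (T₀ : ℕ) : Set (Option J → ℤ) :=
  {c | R ≠ 0 ∧ ∀ T' : ℕ, ¬ Own R T₀ T' c}

theorem bare_null (R : MvPolynomial J ℤ) (T₀ : ℕ) : ProNull (Bare R T₀) := by
  classical
  by_cases hR : R = 0
  · intro M hM ε hε
    refine ⟨1, one_pos, Nat.coprime_one_left M, ?_⟩
    have he : Bare R T₀ = ∅ := by
      rw [Set.eq_empty_iff_forall_notMem]
      rintro c ⟨h, _⟩
      exact h hR
    rw [he, Set.image_empty, Set.ncard_empty, Nat.cast_zero]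
    positivity
  · have h1 : ProNull {c : Option J → ℤ | c none ≠ 0 ∧ ∀ T' : ℕ, ¬ Own R T₀ T' c} := by
      intro M hM ε hε
      obtain ⟨P, hP, hPc⟩ := Pool.Agent.N265.ORB.bad_small hR T₀ M hM ε hε
      refine ⟨∏ p ∈ P, p, Finset.prod_pos fun p hp => (hP p hp).1.pos,
        Nat.Coprime.prod_left fun p hp => (hP p hp).2.2, le_trans ?_ hPc⟩
      have hq : 0 < ∏ p ∈ P, p := Finset.prod_pos fun p hp => (hP p hp).1.pos
      have : NeZero (∏ p ∈ P, p) := ⟨hq.ne'⟩
      refine Nat.cast_le.2 (Set.ncard_le_ncard (Set.image_mono ?_) (Set.toFinite _))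
      rintro c ⟨h0, hc⟩ p hp hmem
      refine hc (P.sup id) ⟨h0, p, (hP p hp).1, (hP p hp).2.1, Finset.le_sup (f := id) hp, ?_, ?_⟩
      · exact (ZMod.intCast_zmod_eq_zero_iff_dvd _ _).1 hmem.1
      · intro hdvd
        apply hmem.2
        have h3 := Pool.Agent.N265.ORB.eval_red p R (fun j => c (some j))
        show eval (fun j => ((c (some j) : ℤ) : ZMod p)) (Pool.Agent.N265.ORB.mp p R) = 0
        rw [h3]
        exact (ZMod.intCast_zmod_eq_zero_iff_dvd _ _).2 hdvd
    refine Clo.mono ?_ (Clo.union h1 (zero_pronull (J := J)))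
    rintro c ⟨_, hc⟩
    by_cases h0 : c none = 0
    · right
      show eval c (X none : MvPolynomial (Option J) ℤ) = 0
      rw [eval_X, h0]
    · exact Or.inl ⟨h0, hc⟩

/-- **Zilber-Pink in `Y(1)^n` for families of vectors of residues, for all families of rational curves.** -/
theorem result (J : Type) [Fintype J] [DecidableEq J] :
    -- (1)
    (∀ n d : ℕ, 0 < d → ∀ A : Coeffs n d (MvPolynomial J ℤ), NoCommonZeros A →
      ∀ Γ : Finset ℂ, (∀ γ ∈ Γ, IsAlgebraic ℚ γ) → ∀ ε : ℝ, 0 < ε → ∃ G Z₀ : ℕ,
        ∀ (τ : Type) (q : ℕ) [NeZero q] (s : Finset τ) (y : τ → Option J → ZMod q) (Z : ℝ),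
          Z₀ ≤ Z → Small q Z s y → ∀ c₀ : Option J → ℤ,
            ({i : τ | i ∈ s ∧ ¬ ZilberPink (Γ : Set ℂ) G (member A (vec y c₀ i))}.ncard : ℝ) ≤
              ε * s.card) ∧
    -- (2)
    (∀ F : Fams (Option J), ∃ E : ∀ k, Set (F.τ k), F.Thin E ∧
      ∀ n d : ℕ, 0 < d → ∀ A : Coeffs n d (MvPolynomial J ℤ), NoCommonZeros A →
        ∀ Γ : Finset ℂ, (∀ γ ∈ Γ, IsAlgebraic ℚ γ) → ∀ᶠ k in atTop, ∀ i ∈ F.s k, i ∉ E k →
          ∃ G : ℕ, ZilberPink (Γ : Set ℂ) G (member A (F.v k i))) ∧
    -- (3)
    Examples := by
  classical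
  refine ⟨?_, ?_, examples⟩
  · intro n d hd A hA Γ hΓ ε hε
    obtain ⟨R, T₀, hR, hG⟩ := local_family n d hd A hA Γ hΓ
    obtain ⟨T', B, Q, hQ, hB, hBC⟩ := exists_T hR T₀ (ε / 2 / 2) (by positivity)
    obtain ⟨G, hG⟩ := hG T'
    obtain ⟨Z₁, h1⟩ := small_fam B Q hQ (ε / 2) (by positivity) hB
    obtain ⟨Z₂, h2⟩ := pro_fam (zero_pronull (J := J)) (ε / 2) (by positivity)
    refine ⟨G, max Z₁ Z₂, fun τ q _ s y Z hZ hsm c₀ => ?_⟩
    have hZ' : max (Z₁ : ℝ) Z₂ ≤ Z := by exact_mod_cast hZ
    have k1 := h1 τ q s y Z ((le_max_left _ _).trans hZ') hsm c₀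
    have k2 := h2 τ q s y Z ((le_max_right _ _).trans hZ') hsm c₀
    have hsub : {i : τ | i ∈ s ∧ ¬ ZilberPink (Γ : Set ℂ) G (member A (vec y c₀ i))} ⊆
        {i : τ | i ∈ s ∧ vec y c₀ i ∈ B} ∪ {i : τ | i ∈ s ∧ ¬ (vec y c₀ i ∉
          {c : Option J → ℤ | eval c (X none : MvPolynomial (Option J) ℤ) = 0})} := by
      rintro i ⟨hi, hbad⟩
      rcases hBC (vec y c₀ i) (fun h => hbad (hG _ h)) with h | h
      · exact Or.inl ⟨hi, h⟩
      · exact Or.inr ⟨hi, not_not.2 h⟩
    have h5 := (Set.ncard_le_ncard hsub ((finite_sub s _).union (finite_sub s _))).trans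
      (Set.ncard_union_le _ _)
    have h6 : ({i : τ | i ∈ s ∧ ¬ ZilberPink (Γ : Set ℂ) G (member A (vec y c₀ i))}.ncard : ℝ) ≤
        ({i : τ | i ∈ s ∧ vec y c₀ i ∈ B}.ncard : ℝ) + ({i : τ | i ∈ s ∧ ¬ (vec y c₀ i ∉
          {c : Option J → ℤ | eval c (X none : MvPolynomial (Option J) ℤ) = 0})}.ncard : ℝ) := by
      exact_mod_cast h5
    linarith
  · intro F
    have hcnt : Countable (MvPolynomial J ℤ) := by
      let g : MvPolynomial J ℤ → ((J →₀ ℕ) →₀ ℤ) := fun p =>
        Finsupp.onFinset p.support (fun m => coeff m p) (by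
          intro m hm
          exact mem_support_iff.2 hm)
      have hg : Function.Injective g := by
        intro p q hpq
        ext m
        exact DFunLike.congr_fun hpq m
      exact hg.countable
    obtain ⟨E, hE, h1⟩ := one_fam F (κ := MvPolynomial J ℤ × ℕ) (fun x => Bare x.1 x.2)
      (fun x => bare_null x.1 x.2)
    refine ⟨E, hE, fun n d hd A hA Γ hΓ => ?_⟩
    obtain ⟨R, T₀, hR, hG⟩ := local_family n d hd A hA Γ hΓ
    filter_upwards [h1 (R, T₀)] with k hk i hi hiE
    by_contra hcon
    refine hk i hi hiE ⟨hR, fun T' hown => hcon ?_⟩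
    obtain ⟨G, hG'⟩ := hG T'
    exact ⟨G, hG' _ hown⟩

end Pool.Agent.Results.MP_6e1a06_nt.ResidueVectors
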